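import Pool.Agent.Helper97_WHC.Stmt

/-!
# Squad WHC, row ALG: the Casselman-Shalika relation
-/

set_option autoImplicit false

open scoped BigOperators

namespace Pool.Agent.WHC.H56

open Pool.Agent.DEN Pool.Agent.TMP Pool.Agent.WHT

variable {r : ℕ} {C : Matrix (Fin r) (Fin r) ℤ}

theorem ex_add (a b : Fin r → ℤ) : (ex (a + b) : CQ r) = ex a * ex b := by
  unfold ex
  rw [AddMonoidAlgebra.single_mul_single, one_mul]

theorem wA_ex (w : LA r) (l : Fin r → ℤ) : wA w (ex l) = ex (w l) := by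
  unfold wA ex
  rw [AddMonoidAlgebra.domCongr_single]
  rfl

/-- ALG. -/
theorem alg (hW : WeyStmt) (hG : GrmStmt) : AlgStmt := by
  intro r C hC R
  obtain ⟨dsc, hdsc, hG'⟩ := hG r C hC
  obtain ⟨R₀, hR⟩ := hG' R
  obtain ⟨hfin, -, -, hcoc, -⟩ := hW r C hC
  refine ⟨R₀, fun y hy hWal l₀ l hl₀ hl => ?_⟩
  obtain ⟨c, hc, hy'⟩ := hR y hy hWal
  haveI : Finite (Wg hC) := hfin
  haveI : Fintype (Wg hC) := Fintype.ofFinite _
  have key : ∀ m : Fin r → ℤ, (∀ i, R₀ ≤ ip C (al i) m) →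
      dsc * y m = c * ∑ w : Wg hC, (sg w.1 : CQ r) * ex (w.1 m - dl C w.1) := by
    intro m hm
    rw [hy' m hm, finsum_eq_sum_of_fintype, Finset.mul_sum]
    refine Finset.sum_congr rfl fun w _ => ?_
    rw [map_mul, hc w.1 w.2, wA_ex, sub_eq_add_neg, ex_add]
    ring
  apply mul_left_cancel₀ hdsc
  rw [finsum_eq_sum_of_fintype, finsum_eq_sum_of_fintype]
  calc dsc * ((∑ w : Wg hC, ex (w.1 l)) * y l₀)
      = (∑ v : Wg hC, ex (v.1 l)) * (dsc * y l₀) := by ring
    _ = (∑ v : Wg hC, ex (v.1 l)) *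
        (c * ∑ w : Wg hC, (sg w.1 : CQ r) * ex (w.1 l₀ - dl C w.1)) := by rw [key l₀ hl₀]
    _ = c * ∑ v : Wg hC, ∑ w : Wg hC, ex (v.1 l) *
        ((sg w.1 : CQ r) * ex (w.1 l₀ - dl C w.1)) := by
        rw [Finset.sum_mul]
        refine Eq.trans ?_ (Finset.mul_sum _ _ _).symm
        refine Finset.sum_congr rfl fun v _ => ?_
        rw [mul_left_comm]
        congr 1
        exact Finset.mul_sum _ _ _
    _ = c * ∑ v : Wg hC, ∑ w : Wg hC, (sg w.1 : CQ r) *
        ((sg v.1 : CQ r) * ex (v.1 (l + w.1 l₀ - dl C w.1) - dl C v.1)) := by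
        congr 1
        refine Finset.sum_congr rfl fun v _ => ?_
        rw [← Equiv.sum_comp (Equiv.mulLeft v)]
        refine Finset.sum_congr rfl fun w _ => ?_
        have h1 : (Equiv.mulLeft v w).1 = v.1 * w.1 := rfl
        obtain ⟨h2, h3⟩ := hcoc v.1 v.2 w.1 w.2
        rw [h1, h2, h3]
        have h4 : (v.1 * w.1) l₀ = v.1 (w.1 l₀) := rfl
        have h5 : v.1 l + (v.1 (w.1 l₀) - (dl C v.1 + v.1 (dl C w.1))) =
            v.1 (l + w.1 l₀ - dl C w.1) - dl C v.1 := by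
          rw [map_sub, map_add]
          abel
        rw [h4, ← h5, ex_add]
        push_cast
        ring
    _ = dsc * ∑ w : Wg hC, (sg w.1 : CQ r) * y (l + w.1 l₀ - dl C w.1) := by
        rw [Finset.sum_comm, Finset.mul_sum, Finset.mul_sum]
        refine Finset.sum_congr rfl fun w _ => ?_
        have h7 : ∑ v : Wg hC, (sg w.1 : CQ r) *
            ((sg v.1 : CQ r) * ex (v.1 (l + w.1 l₀ - dl C w.1) - dl C v.1)) =
            (sg w.1 : CQ r) * ∑ v : Wg hC,
              (sg v.1 : CQ r) * ex (v.1 (l + w.1 l₀ - dl C w.1) - dl C v.1) :=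
          (Finset.mul_sum _ _ _).symm
        rw [h7]
        have h6 := key _ (hl w.1 w.2)
        calc c * ((sg w.1 : CQ r) * ∑ v : Wg hC,
              (sg v.1 : CQ r) * ex (v.1 (l + w.1 l₀ - dl C w.1) - dl C v.1))
            = (sg w.1 : CQ r) * (c * ∑ v : Wg hC,
              (sg v.1 : CQ r) * ex (v.1 (l + w.1 l₀ - dl C w.1) - dl C v.1)) := by ring
          _ = (sg w.1 : CQ r) * (dsc * y (l + w.1 l₀ - dl C w.1)) := by rw [h6]
          _ = _ := by ring

end Pool.Agent.WHC.H56
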