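import Pool.Agent.Helper97_WHC.Stmt
import Pool.Agent.Helper29_TMP.Inv
import Pool.Agent.Helper29_TMP.Cnt

/-!
# Squad WHC, row GDC: good points in terms of the conductor
-/

set_option autoImplicit false

open scoped BigOperators

namespace Pool.Agent.WHC.H56

open Pool.Agent.DEN Pool.Agent.TMP Pool.Agent.WHT

/-- GDC. -/
theorem gdc (hG : GenxStmt) : GdcStmt := by
  intro r C hC K _ _ N χ hχ c hc
  obtain ⟨-, -, g3, g4⟩ := hG r C hC K
  have main : ∀ m : Fin r → ℤ, GoodU hC χ m ↔ ∀ i, ip C (al i) m ≤ c i := by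
    intro m
    constructor
    · intro hm i
      by_contra hlt
      push Not at hlt
      obtain ⟨-, a, ha, hne⟩ := hc i
      refine hne (hm _ (Pool.Agent.TMP.H29.xi_mem_Ug hC i a) ?_)
      exact xg_tp hC m (hC.sr i)
        (Pool.Agent.TMP.H29.Bd_mono (show c i + 1 ≤ ip C (hC.sr i).1 m from hlt) ha)
    · intro hm u hu hfix
      rw [g3 N χ hχ u hu]
      refine Finset.prod_eq_one fun i _ => ?_
      exact (hc i).1 _ (Pool.Agent.TMP.H29.Bd_mono (hm i) (g4 u hu m hfix i))
  refine ⟨main, fun m => ?_⟩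
  exact and_congr_right fun _ => main m

end Pool.Agent.WHC.H56
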